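import Pool.Agent.H28.MCL.Targets

/-!
Row DTA: the deterministic bound, many clusters.
-/

set_option autoImplicit false

open Pool.Agent.H28.MCL Finset Filter

namespace Pool.Agent.H86.MCL

theorem ind_nonneg (P : ℕ → Prop) (n : ℕ) : 0 ≤ ind P n := by
  unfold ind
  split_ifs <;> norm_num

theorem ind_le_one (P : ℕ → Prop) (n : ℕ) : ind P n ≤ 1 := by
  unfold ind
  split_ifs <;> norm_num

theorem bc_nonneg {m : ℕ} (W : ℕ) (κ : ℝ) (h : ℕ) (A : Fin m → Finset ℕ) (g : Fin m → ℕ → ℝ)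
    (l : Fin m) (j z : ℕ) : 0 ≤ bc W κ h A g l j z := by
  unfold bc
  apply mul_nonneg (by positivity)
  apply Finset.sum_nonneg
  intro a _
  exact ind_nonneg _ _

theorem bc_le_one {m : ℕ} (W : ℕ) (κ : ℝ) (h : ℕ) (A : Fin m → Finset ℕ) (g : Fin m → ℕ → ℝ)
    (l : Fin m) (j z : ℕ) : bc W κ h A g l j z ≤ 1 := by
  unfold bc
  have h1 : ∑ a ∈ A l, ind (Bad (fun y => g l y * g l (y + j * W)) κ W a h) z ≤
      ((A l).card : ℝ) := by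
    calc _ ≤ ∑ a ∈ A l, (1 : ℝ) := Finset.sum_le_sum (fun a _ => ind_le_one _ _)
    _ = _ := by simp
  rcases Nat.eq_zero_or_pos (A l).card with h0 | h0
  · rw [h0]
    simp
  · have h2 : (0 : ℝ) < ((A l).card : ℝ) := by exact_mod_cast h0
    rw [one_div, inv_mul_le_iff₀ h2, mul_one]
    exact h1

theorem bb_nonneg {m : ℕ} (D W : ℕ) (hD : 2 ≤ D) (κ : ℝ) (h : ℕ) (A : Fin m → Finset ℕ)
    (g : Fin m → ℕ → ℝ) (z : ℕ) : 0 ≤ bb D W κ h A g z := by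
  unfold bb
  have h1 : (0 : ℝ) ≤ (D : ℝ) - 1 := by
    have : (2 : ℝ) ≤ D := by exact_mod_cast hD
    linarith
  apply mul_nonneg
  · exact div_nonneg zero_le_one (mul_nonneg (Nat.cast_nonneg _) h1)
  · exact Finset.sum_nonneg fun l _ => Finset.sum_nonneg fun j _ => bc_nonneg _ _ _ _ _ _ _ _

/-- the averages of `bc` -/
noncomputable def vv {m : ℕ} (W : ℕ) (κ : ℝ) (h : ℕ) (A : Fin m → Finset ℕ) (g : Fin m → ℕ → ℝ)
    (T : ℕ) (l : Fin m) (j n : ℕ) : ℝ :=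
  1 / (T : ℝ) * ∑ s ∈ Finset.Icc 1 T, bc W κ h A g l j (n + s)

theorem vv_nonneg {m : ℕ} (W : ℕ) (κ : ℝ) (h : ℕ) (A : Fin m → Finset ℕ) (g : Fin m → ℕ → ℝ)
    (T : ℕ) (l : Fin m) (j n : ℕ) : 0 ≤ vv W κ h A g T l j n := by
  unfold vv
  exact mul_nonneg (by positivity) (Finset.sum_nonneg fun s _ => bc_nonneg _ _ _ _ _ _ _ _)

theorem vv_le_one {m : ℕ} (W : ℕ) (κ : ℝ) (h : ℕ) (A : Fin m → Finset ℕ) (g : Fin m → ℕ → ℝ)
    (T : ℕ) (l : Fin m) (j n : ℕ) : vv W κ h A g T l j n ≤ 1 := by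
  unfold vv
  have h1 : ∑ s ∈ Finset.Icc 1 T, bc W κ h A g l j (n + s) ≤ (T : ℝ) := by
    calc _ ≤ ∑ s ∈ Finset.Icc 1 T, (1 : ℝ) :=
          Finset.sum_le_sum (fun a _ => bc_le_one _ _ _ _ _ _ _ _)
    _ = _ := by simp
  rcases Nat.eq_zero_or_pos T with h0 | h0
  · rw [h0]
    simp
  · have h2 : (0 : ℝ) < (T : ℝ) := by exact_mod_cast h0
    rw [one_div, inv_mul_le_iff₀ h2, mul_one]
    exact h1

/-- the averages over `l` and `j` -/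
theorem vv_sum {m : ℕ} (hm : 1 ≤ m) (D W : ℕ) (hD : 2 ≤ D) (κ : ℝ) (h : ℕ)
    (A : Fin m → Finset ℕ) (g : Fin m → ℕ → ℝ) (T : ℕ) (n : ℕ) :
    ∑ j ∈ Finset.Ico 1 D, (1 / (m : ℝ) * ∑ l, vv W κ h A g T l j n) =
      ((D : ℝ) - 1) * (1 / (T : ℝ) * ∑ s ∈ Finset.Icc 1 T, bb D W κ h A g (n + s)) := by
  have h1 : (0 : ℝ) < (D : ℝ) - 1 := by
    have : (2 : ℝ) ≤ D := by exact_mod_cast hD
    linarith
  have h2 : (0 : ℝ) < m := by exact_mod_cast hm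
  unfold bb vv
  have e1 : ∀ x : ℝ, ((D : ℝ) - 1) * (1 / (T : ℝ) * (1 / ((m : ℝ) * ((D : ℝ) - 1)) * x)) =
      1 / (m : ℝ) * (1 / (T : ℝ) * x) := by
    intro x
    field_simp
  rw [← Finset.mul_sum, ← Finset.mul_sum, e1]
  congr 1
  have e2 : ∀ l : Fin m, ∀ j : ℕ, 1 / (T : ℝ) * ∑ s ∈ Finset.Icc 1 T, bc W κ h A g l j (n + s) =
      1 / (T : ℝ) * ∑ s ∈ Finset.Icc 1 T, bc W κ h A g l j (n + s) := fun _ _ => rfl
  simp_rw [← Finset.mul_sum]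
  congr 1
  rw [Finset.sum_comm]
  simp_rw [Finset.sum_comm (s := Finset.Ico 1 D) (t := Finset.Icc 1 T)]
  rw [Finset.sum_comm]

/-- the product of the functions `yy` -/
theorem prod_yy (hy : T_YBD) (hp : T_PRA) (m W h T j n : ℕ) (κ z : ℝ) (A : Fin m → Finset ℕ)
    (g : Fin m → ℕ → ℝ) (hm : 1 ≤ m) (hA : ∀ l, A l ⊆ Finset.range W) (hg : ∀ l y, |g l y| ≤ 1)
    (hW : 0 < W) (hh : 0 < h) (hT : 0 < T) (hκ : 0 < κ) (hκ1 : κ ≤ 1) (hz : 0 < z)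
    (hzκ : z ≤ κ / 4) (hzm : (m : ℝ) * z ≤ 1 / 2) (h1 : (W : ℝ) ≤ z / 2 * h)
    (h2 : ((2 * h + 1) * W : ℝ) ≤ z / 2 * T) :
    ∏ l, yy W A g T l j n ≤ (∏ l, ((A l).card * ((T : ℝ) / W))) *
      (2 * Real.sqrt (1 - κ / 4) ^ m + 8 * (1 / (m : ℝ) * ∑ l, vv W κ h A g T l j n)) := by
  have hP : (0 : ℝ) ≤ ∏ l, ((A l).card * ((T : ℝ) / W)) :=
    Finset.prod_nonneg fun l _ => by positivity
  calc ∏ l, yy W A g T l j n
      ≤ ∏ l, ((A l).card * ((T : ℝ) / W) * (1 - κ * (1 - vv W κ h A g T l j n) + z)) := by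
        apply Finset.prod_le_prod
        · intro l _
          unfold yy
          exact abs_nonneg _
        · intro l _
          exact hy m W h T j n κ z A g l hA hg hW hh hT hκ hκ1 hz h1 h2
    _ = (∏ l, ((A l).card * ((T : ℝ) / W))) *
          ∏ l, (1 - κ * (1 - vv W κ h A g T l j n) + z) := by
        rw [Finset.prod_mul_distrib]
    _ ≤ _ := by
        apply mul_le_mul_of_nonneg_left _ hP
        exact hp m κ z (fun l => vv W κ h A g T l j n) hm hκ hκ1 hz.le hzκ hzm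
          fun l => ⟨vv_nonneg _ _ _ _ _ _ _ _ _, vv_le_one _ _ _ _ _ _ _ _ _⟩

/-- the sum over `j` of `D - j` -/
theorem sum_D (D : ℕ) (hD : 1 ≤ D) : ∑ j ∈ Finset.Ico 1 D, ((D : ℝ) - j) ≤ (D : ℝ) ^ 2 / 2 := by
  have h1 : ∀ E : ℕ, 1 ≤ E → ∑ j ∈ Finset.Ico 1 E, ((D : ℝ) - j) =
      ((E : ℝ) - 1) * D - E * (E - 1) / 2 := by
    intro E hE
    induction E, hE using Nat.le_induction with
    | base => simp
    | succ E hE ih =>
      rw [Finset.sum_Ico_succ_top hE, ih]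
      push_cast
      ring
  rw [h1 D hD]
  have h2 : (0 : ℝ) ≤ D := Nat.cast_nonneg D
  nlinarith

/-- the sum of the products, abstractly -/
theorem sum_abs (D : ℕ) (hD : 1 ≤ D) (I : Finset ℕ) (Y v : ℕ → ℕ → ℝ) (P a c e : ℝ)
    (hP : 0 ≤ P) (ha : 0 ≤ a) (hv : ∀ j n, 0 ≤ v j n) (hY : ∀ j n, Y j n ≤ P * (a + 8 * v j n))
    (hI : (I.card : ℝ) ≤ c)
    (he : ∑ j ∈ Finset.Ico 1 D, ∑ n ∈ I, v j n ≤ D * e) :
    2 * ∑ j ∈ Finset.Ico 1 D, ((D : ℝ) - j) * ∑ n ∈ I, Y j n ≤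
      (D : ℝ) ^ 2 * (P * (a * c + 16 * e)) := by
  have hDpos : (0 : ℝ) ≤ D := Nat.cast_nonneg D
  have hDj : ∀ j ∈ Finset.Ico 1 D, (0 : ℝ) ≤ (D : ℝ) - j := by
    intro j hj
    have : (j : ℝ) ≤ D := by
      exact_mod_cast (Finset.mem_Ico.1 hj).2.le
    linarith
  have h1 : ∀ j ∈ Finset.Ico 1 D, ((D : ℝ) - j) * ∑ n ∈ I, Y j n ≤
      ((D : ℝ) - j) * (P * (a * c)) + D * P * 8 * ∑ n ∈ I, v j n := by
    intro j hj
    have h2 : ∑ n ∈ I, Y j n ≤ P * (a * c) + P * 8 * ∑ n ∈ I, v j n := by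
      calc ∑ n ∈ I, Y j n ≤ ∑ n ∈ I, P * (a + 8 * v j n) :=
            Finset.sum_le_sum fun n _ => hY j n
        _ = P * (a * I.card) + P * 8 * ∑ n ∈ I, v j n := by
            rw [← Finset.mul_sum, Finset.sum_add_distrib, Finset.sum_const, nsmul_eq_mul,
              ← Finset.mul_sum]
            ring
        _ ≤ P * (a * c) + P * 8 * ∑ n ∈ I, v j n := by
            have := mul_le_mul_of_nonneg_left (mul_le_mul_of_nonneg_left hI ha) hP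
            linarith
    have h3 : 0 ≤ P * 8 * ∑ n ∈ I, v j n :=
      mul_nonneg (mul_nonneg hP (by norm_num)) (Finset.sum_nonneg fun n _ => hv j n)
    have h4 : ((D : ℝ) - j) ≤ D := by
      have : (0 : ℝ) ≤ j := Nat.cast_nonneg _
      linarith
    calc ((D : ℝ) - j) * ∑ n ∈ I, Y j n
        ≤ ((D : ℝ) - j) * (P * (a * c) + P * 8 * ∑ n ∈ I, v j n) :=
          mul_le_mul_of_nonneg_left h2 (hDj j hj)
      _ = ((D : ℝ) - j) * (P * (a * c)) + ((D : ℝ) - j) * (P * 8 * ∑ n ∈ I, v j n) := by ring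
      _ ≤ ((D : ℝ) - j) * (P * (a * c)) + D * (P * 8 * ∑ n ∈ I, v j n) := by
          have := mul_le_mul_of_nonneg_right h4 h3
          linarith
      _ = _ := by ring
  have h5 : 0 ≤ c := le_trans (Nat.cast_nonneg _) hI
  have h6 : 0 ≤ P * (a * c) := mul_nonneg hP (mul_nonneg ha h5)
  calc 2 * ∑ j ∈ Finset.Ico 1 D, ((D : ℝ) - j) * ∑ n ∈ I, Y j n
      ≤ 2 * ∑ j ∈ Finset.Ico 1 D,
        (((D : ℝ) - j) * (P * (a * c)) + D * P * 8 * ∑ n ∈ I, v j n) :=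
        mul_le_mul_of_nonneg_left (Finset.sum_le_sum h1) (by norm_num)
    _ = 2 * ((∑ j ∈ Finset.Ico 1 D, ((D : ℝ) - j)) * (P * (a * c)) +
        D * P * 8 * ∑ j ∈ Finset.Ico 1 D, ∑ n ∈ I, v j n) := by
        rw [Finset.sum_add_distrib, ← Finset.sum_mul, ← Finset.mul_sum]
    _ ≤ 2 * ((D : ℝ) ^ 2 / 2 * (P * (a * c)) + D * P * 8 * (D * e)) := by
        have h7 := mul_le_mul_of_nonneg_right (sum_D D hD) h6
        have h8 : (D : ℝ) * P * 8 * ∑ j ∈ Finset.Ico 1 D, ∑ n ∈ I, v j n ≤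
            D * P * 8 * (D * e) :=
          mul_le_mul_of_nonneg_left he (mul_nonneg (mul_nonneg hDpos hP) (by norm_num))
        linarith
    _ = _ := by ring

/-- the sum of the products -/
theorem S_bound (hy : T_YBD) (ha : T_AVG) (hp : T_PRA) (hc : T_CNT) (m D q W h N H T n₀ : ℕ)
    (κ θ z : ℝ) (A : Fin m → Finset ℕ)
    (g : Fin m → ℕ → ℝ) (hm : 1 ≤ m) (hD : 2 ≤ D) (hq0 : 0 < q) (hA : ∀ l, A l ⊆ Finset.range W)
    (hg : ∀ l y, |g l y| ≤ 1)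
    (hW : 0 < W) (hh : 0 < h) (hT : 0 < T) (hκ : 0 < κ) (hκ1 : κ ≤ 1) (hθ : 0 < θ) (hz : 0 < z)
    (hzκ : z ≤ κ / 4) (hzm : (m : ℝ) * z ≤ 1 / 2) (h1 : (W : ℝ) ≤ z / 2 * h)
    (h2 : ((2 * h + 1) * W : ℝ) ≤ z / 2 * T) (h3 : (q : ℝ) ≤ z * H) (hqH : q ≤ H) (hHN : H ≤ N)
    (hqT : q ≤ T) (hTN : T ≤ N) (hGd : Gd (bb D W κ h A g) θ N) :
    2 * ∑ j ∈ Finset.Ico 1 D, ((D : ℝ) - j) * ∑ n ∈ iv N H q n₀, ∏ l, yy W A g T l j n ≤
      (D : ℝ) ^ 2 * mm q W A H T * (2 * Real.sqrt (1 - κ / 4) ^ m * (1 + z) + 64 * θ) := by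
  have hs0 : 0 ≤ Real.sqrt (1 - κ / 4) ^ m := pow_nonneg (Real.sqrt_nonneg _) m
  have hD2 : (2 : ℝ) ≤ D := by exact_mod_cast hD
  have hqpos : (0 : ℝ) < q := by exact_mod_cast hq0
  have hav := ha (bb D W κ h A g) θ q n₀ N H T (bb_nonneg D W hD κ h A g) hθ hq0 hqH hHN
    hqT hTN hGd
  have hiv : ((iv N H q n₀).card : ℝ) ≤ (1 + z) * (H / q) := by
    have h4 := ((hc q 0 H ∅ hq0 (Finset.empty_subset _)).2.2 N n₀ hHN).1
    have h5 : (1 : ℝ) ≤ z * (H / q) := by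
      rw [← mul_div_assoc, le_div_iff₀ hqpos]
      linarith
    linarith
  have hP : (0 : ℝ) ≤ ∏ l, ((A l).card * ((T : ℝ) / W)) :=
    Finset.prod_nonneg fun l _ => by positivity
  have he : ∑ j ∈ Finset.Ico 1 D, ∑ n ∈ iv N H q n₀,
      (1 / (m : ℝ) * ∑ l, vv W κ h A g T l j n) ≤ D * (4 * θ * H / q) := by
    rw [Finset.sum_comm]
    calc ∑ n ∈ iv N H q n₀, ∑ j ∈ Finset.Ico 1 D, (1 / (m : ℝ) * ∑ l, vv W κ h A g T l j n)
        = ∑ n ∈ iv N H q n₀, ((D : ℝ) - 1) *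
          (1 / (T : ℝ) * ∑ s ∈ Finset.Icc 1 T, bb D W κ h A g (n + s)) :=
          Finset.sum_congr rfl fun n _ => vv_sum hm D W hD κ h A g T n
      _ = ((D : ℝ) - 1) * ∑ n ∈ iv N H q n₀,
          (1 / (T : ℝ) * ∑ s ∈ Finset.Icc 1 T, bb D W κ h A g (n + s)) := by
          rw [Finset.mul_sum]
      _ ≤ ((D : ℝ) - 1) * (4 * θ * H / q) :=
          mul_le_mul_of_nonneg_left hav (by linarith)
      _ ≤ D * (4 * θ * H / q) :=
          mul_le_mul_of_nonneg_right (by linarith) (by positivity)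
  have hv : ∀ j n : ℕ, 0 ≤ 1 / (m : ℝ) * ∑ l, vv W κ h A g T l j n := fun j n =>
    mul_nonneg (by positivity) (Finset.sum_nonneg fun l _ => vv_nonneg _ _ _ _ _ _ _ _ _)
  have key := sum_abs D (by omega) (iv N H q n₀) (fun j n => ∏ l, yy W A g T l j n)
    (fun j n => 1 / (m : ℝ) * ∑ l, vv W κ h A g T l j n)
    (∏ l, ((A l).card * ((T : ℝ) / W))) (2 * Real.sqrt (1 - κ / 4) ^ m) ((1 + z) * (H / q))
    (4 * θ * H / q) hP (mul_nonneg zero_le_two hs0) hv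
    (fun j n => prod_yy hy hp m W h T j n κ z A g hm hA hg hW hh hT hκ hκ1 hz hzκ hzm h1 h2)
    hiv he
  refine key.trans (le_of_eq ?_)
  unfold mm
  ring

/-- the end of the proof -/
theorem fin_abs (L X Y Q S M D z sm θ V ζ : ℝ) (hD : 0 < D) (hL : L ^ 2 ≤ X * ((Y / D ^ 2) *
    (D * Q + S))) (hXY : X * Y ≤ (1 + z) * M) (hQ : Q ≤ (1 + z) * M) (hQ0 : 0 ≤ Q)
    (hS : S ≤ D ^ 2 * M * (2 * sm * (1 + z) + 64 * θ)) (hS0 : 0 ≤ S) (hM : 0 ≤ M) (hz : 0 < z)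
    (hz1 : z ≤ 1) (hsm : 0 ≤ sm) (hθ : 0 < θ) (hV : V = 1 / D + 4 * sm + 64 * θ)
    (hzV : 3 * z * V ≤ ζ) : L ^ 2 ≤ M ^ 2 * (V + ζ) := by
  have hVpos : 0 < V := by
    rw [hV]
    positivity
  have hZ : D * Q + S ≤ D * ((1 + z) * M) + D ^ 2 * M * (2 * sm * (1 + z) + 64 * θ) :=
    add_le_add (mul_le_mul_of_nonneg_left hQ hD.le) hS
  have hZ0 : 0 ≤ D * Q + S := by positivity
  have hfin : L ^ 2 ≤ ((1 + z) * M) / D ^ 2 *
      (D * ((1 + z) * M) + D ^ 2 * M * (2 * sm * (1 + z) + 64 * θ)) := by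
    refine hL.trans ?_
    calc X * ((Y / D ^ 2) * (D * Q + S)) = (X * Y) / D ^ 2 * (D * Q + S) := by ring
      _ ≤ ((1 + z) * M) / D ^ 2 * (D * Q + S) := by
          apply mul_le_mul_of_nonneg_right _ hZ0
          exact div_le_div_of_nonneg_right hXY (by positivity)
      _ ≤ _ := by
          apply mul_le_mul_of_nonneg_left hZ
          positivity
  have hfin2 : ((1 + z) * M) / D ^ 2 *
      (D * ((1 + z) * M) + D ^ 2 * M * (2 * sm * (1 + z) + 64 * θ)) =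
      M ^ 2 * ((1 + z) * ((1 + z) * (1 / D) + (2 * sm * (1 + z) + 64 * θ))) := by
    field_simp
  rw [hfin2] at hfin
  refine hfin.trans ?_
  apply mul_le_mul_of_nonneg_left _ (sq_nonneg M)
  have h7 : (1 + z) * (1 / D) + (2 * sm * (1 + z) + 64 * θ) ≤ (1 + z) * V := by
    rw [hV]
    have h8 : 0 ≤ (1 + z) * (2 * sm) := by positivity
    have h9 : 0 ≤ z * (64 * θ) := by positivity
    linarith
  calc (1 + z) * ((1 + z) * (1 / D) + (2 * sm * (1 + z) + 64 * θ))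
      ≤ (1 + z) * ((1 + z) * V) := mul_le_mul_of_nonneg_left h7 (by linarith)
    _ = V + z * V * 2 + z * z * V := by ring
    _ ≤ V + z * V * 2 + 1 * z * V := by
        have : z * z * V ≤ 1 * z * V :=
          mul_le_mul_of_nonneg_right (mul_le_mul_of_nonneg_right hz1 hz.le) hVpos.le
        linarith
    _ ≤ V + ζ := by linarith

theorem dta (hq : T_DTQ) (hy : T_YBD) (ha : T_AVG) (hp : T_PRA) (hn : T_NRM) (hc : T_CNT) :
    T_DTA := by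
  intro m D κ θ hm hD hκ hκ1 hθ q W hq0 hqW hW ζ hζ
  have hsm : 0 ≤ Real.sqrt (1 - κ / 4) ^ m := pow_nonneg (Real.sqrt_nonneg _) m
  have hD2 : (2 : ℝ) ≤ D := by exact_mod_cast hD
  have hDpos : (0 : ℝ) < D := by linarith
  have hmpos : (0 : ℝ) < m := by exact_mod_cast hm
  have hqpos : (0 : ℝ) < q := by exact_mod_cast hq0
  have hWpos : (0 : ℝ) < W := by exact_mod_cast hW
  obtain ⟨V, hV⟩ : ∃ V : ℝ, V = 1 / (D : ℝ) + 4 * Real.sqrt (1 - κ / 4) ^ m + 64 * θ := ⟨_, rfl⟩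
  rw [← hV]
  have hVpos : 0 < V := by
    rw [hV]
    positivity
  obtain ⟨z, hz0, hzκ, hzm, hz1, hzV⟩ : ∃ z : ℝ, 0 < z ∧ z ≤ κ / 4 ∧ (m : ℝ) * z ≤ 1 / 2 ∧
      z ≤ 1 ∧ 3 * z * V ≤ ζ := by
    refine ⟨min (min (κ / 4) (1 / (2 * m))) (min 1 (ζ / (3 * V))), ?_, ?_, ?_, ?_, ?_⟩
    · exact lt_min (lt_min (by positivity) (by positivity)) (lt_min one_pos (by positivity))
    · exact (min_le_left _ _).trans (min_le_left _ _)
    · have h1 : min (min (κ / 4) (1 / (2 * m))) (min 1 (ζ / (3 * V))) ≤ 1 / (2 * (m : ℝ)) :=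
        (min_le_left _ _).trans (min_le_right _ _)
      calc (m : ℝ) * _ ≤ (m : ℝ) * (1 / (2 * (m : ℝ))) := mul_le_mul_of_nonneg_left h1 hmpos.le
        _ = 1 / 2 := by field_simp
    · exact (min_le_right _ _).trans (min_le_left _ _)
    · have h1 : min (min (κ / 4) (1 / (2 * m))) (min 1 (ζ / (3 * V))) ≤ ζ / (3 * V) :=
        (min_le_right _ _).trans (min_le_right _ _)
      rw [le_div_iff₀ (by positivity)] at h1
      linarith
  refine ⟨⌈2 * W / z⌉₊ + 1, fun h hh => ?_⟩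
  obtain ⟨K₀, hK₀⟩ := hn m D q W z (by omega) hq0 hW hz0
  refine ⟨K₀ + q + ⌈2 * ((2 * h + 1) * W) / z⌉₊ + ⌈q / z⌉₊ + 1, ?_⟩
  intro n₀ τ A g hA hAm hg N H T hKH hHN hKT hTN hGd w hw
  have hh0 : 0 < h := by omega
  have hT0 : 0 < T := by omega
  -- the conditions on `h`, `T` and `H`
  have hc1 : (W : ℝ) ≤ z / 2 * h := by
    have h1 : 2 * (W : ℝ) / z ≤ h := by
      calc 2 * (W : ℝ) / z ≤ ⌈2 * (W : ℝ) / z⌉₊ := Nat.le_ceil _
        _ ≤ h := by exact_mod_cast (by omega : ⌈2 * (W : ℝ) / z⌉₊ ≤ h)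
    rw [div_le_iff₀ hz0] at h1
    linarith
  have hc2 : ((2 * h + 1) * W : ℝ) ≤ z / 2 * T := by
    have h1 : 2 * ((2 * (h : ℝ) + 1) * W) / z ≤ T := by
      calc 2 * ((2 * (h : ℝ) + 1) * W) / z ≤ ⌈2 * ((2 * (h : ℝ) + 1) * W) / z⌉₊ := Nat.le_ceil _
        _ ≤ T := by exact_mod_cast (by omega : ⌈2 * ((2 * (h : ℝ) + 1) * W) / z⌉₊ ≤ T)
    rw [div_le_iff₀ hz0] at h1
    linarith
  have hc3 : (q : ℝ) ≤ z * H := by
    have h1 : (q : ℝ) / z ≤ H := by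
      calc (q : ℝ) / z ≤ ⌈(q : ℝ) / z⌉₊ := Nat.le_ceil _
        _ ≤ H := by exact_mod_cast (by omega : ⌈(q : ℝ) / z⌉₊ ≤ H)
    rw [div_le_iff₀ hz0] at h1
    linarith
  obtain ⟨hN1, hN2⟩ := hK₀ A H T (by omega) (by omega)
  have hL := hq m q W n₀ D τ A g w N H T hq0 hW hqW (by omega) hA hAm hg hw hHN
  have hSb := S_bound hy ha hp hc m D q W h N H T n₀ κ θ z A g hm hD hq0 hA hg hW hh0 hT0 hκ hκ1
    hθ hz0 hzκ hzm hc1 hc2 hc3 (by omega) hHN (by omega) hTN hGd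
  have hS0 : 0 ≤ 2 * ∑ j ∈ Finset.Ico 1 D, ((D : ℝ) - j) *
      ∑ n ∈ iv N H q n₀, ∏ l, yy W A g T l j n := by
    refine mul_nonneg zero_le_two (Finset.sum_nonneg fun j hj => mul_nonneg ?_
      (Finset.sum_nonneg fun n _ => Finset.prod_nonneg fun l _ => abs_nonneg _))
    have : (j : ℝ) ≤ D := by
      exact_mod_cast (Finset.mem_Ico.1 hj).2.le
    linarith
  have hpp0 : 0 ≤ pp W A T := Finset.prod_nonneg fun l _ => by positivity
  have hM0 : 0 ≤ mm q W A H T :=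
    mul_nonneg (by positivity) (Finset.prod_nonneg fun l _ => by positivity)
  exact fin_abs _ _ _ _ _ _ D z _ θ V ζ hDpos hL hN1 hN2 (mul_nonneg (by positivity) hpp0) hSb hS0
    hM0 hz0 hz1 hsm hθ hV hzV

end Pool.Agent.H86.MCL
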